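import Mathlib

/-!
# Maximin-share fairness fails for multicakes

For every `k ≥ 4` and every `m ≥ 3 k` there is a multicake with `m` islands and three agents such
that in every allocation of pairwise disjoint `k`-pieces some agent gets less than her maximin share
(even less than `1 - 1 / (60 k ^ 2 + 40)` times it).
-/

set_option autoImplicit false

open MeasureTheory Set
open scoped ENNReal

namespace Pool.Agent.Results.MP_436c60_co.ThreeAgents

/-- A `k`-piece of the cake `C`: a union of (at most) `k` intervals contained in `C`.  The intervals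
may be open, closed, half open, degenerate or empty (order-connected subsets of `ℝ`). -/
def IsPiece (C : Set ℝ) (k : ℕ) (P : Set ℝ) : Prop :=
  ∃ I : Fin k → Set ℝ, (∀ l, (I l).OrdConnected) ∧ (∀ l, I l ⊆ C) ∧ P = ⋃ l, I l

/-- Tuples of pairwise disjoint `k`-pieces. -/
def IsAllocation (C : Set ℝ) (k : ℕ) {n : ℕ} (X : Fin n → Set ℝ) : Prop :=
  (∀ i, IsPiece C k (X i)) ∧ Pairwise (fun i j => Disjoint (X i) (X j))

/-- The maximin share: the supremum, over all `n`-tuples of pairwise disjoint `k`-pieces, of the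
value of the worst piece. -/
noncomputable def MMS (C : Set ℝ) (k n : ℕ) (V : Measure ℝ) : ℝ≥0∞ :=
  ⨆ (P : Fin n → Set ℝ) (_ : IsAllocation C k P), ⨅ j, V (P j)

/-- A value measure on the cake `C`: finite, nonatomic, concentrated on `C`, and `V C > 0`. -/
structure IsValueMeasure (C : Set ℝ) (V : Measure ℝ) : Prop where
  finite : IsFiniteMeasure V
  noAtoms : NullSingletonClass V
  conc : V Cᶜ = 0
  pos : 0 < V C

/-! ### The indivisible core -/

/-- Nine goods valued by three agents. -/
def wl : Fin 3 → List ℕ := ![[1,16,23,26,4,10,12,19,9],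
  [1,16,22,26,4,9,13,20,9], [1,15,23,25,4,10,13,20,9]]

/-- The value of the good `j` to agent `i` (zero for `j ≥ 9`). -/
def w (i : Fin 3) (j : ℕ) : ℕ := (wl i).getD j 0

/-- For every agent a partition of the twelve goods `0, ..., 11` into three bundles of four, each
worth exactly `40` to that agent. -/
def tbl : Fin 3 → Fin 3 → Fin 4 → ℕ :=
  ![![![0,1,2,9], ![3,4,5,10], ![6,7,8,11]],
    ![![0,3,6,9], ![1,4,7,10], ![2,5,8,11]],
    ![![0,5,7,8], ![1,3,9,10], ![2,4,6,11]]]

theorem tbl_sum : ∀ i p : Fin 3, ∑ l, w i (tbl i p l) = 40 := by decide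

theorem tbl_lt : ∀ i p : Fin 3, ∀ l, tbl i p l < 12 := by decide

theorem tbl_inj : ∀ i p p' : Fin 3, ∀ l l', tbl i p l = tbl i p' l' → p = p' ∧ l = l' := by decide

theorem w_zero (i : Fin 3) (j : ℕ) (hj : 9 ≤ j) : w i j = 0 := by
  unfold w
  apply List.getD_eq_default
  have : (wl i).length = 9 := by revert i; decide
  omega

theorem w_le (i : Fin 3) (j : ℕ) : w i j ≤ 26 := by
  by_cases hj : j < 9
  · have : ∀ i : Fin 3, ∀ j : Fin 9, w i j ≤ 26 := by decide
    exact this i ⟨j, hj⟩
  · rw [w_zero i j (by omega)]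
    omega

/-- Exhaustive search over the ways to hand out a list of goods. -/
def chk : List (ℕ × ℕ × ℕ) → ℕ → ℕ → ℕ → Bool
  | [], x, y, z => !(Nat.ble 40 x && Nat.ble 40 y && Nat.ble 40 z)
  | (r, c, u) :: t, x, y, z => chk t (x + r) y z && chk t x (y + c) z && chk t x y (z + u)

/-- The value `n` if the owner `f` is agent `i`, and zero otherwise. -/
def sel (i : Fin 3) (f : Fin 3) (n : ℕ) : ℕ := if f = i then n else 0

theorem chk_sound : ∀ (l : List (ℕ × ℕ × ℕ)) (x y z : ℕ), chk l x y z = true →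
    ∀ (s : List (Fin 3)), s.length = l.length →
    ¬ (40 ≤ x + ((s.zip l).map (fun p => sel 0 p.1 p.2.1)).sum ∧
       40 ≤ y + ((s.zip l).map (fun p => sel 1 p.1 p.2.2.1)).sum ∧
       40 ≤ z + ((s.zip l).map (fun p => sel 2 p.1 p.2.2.2)).sum) := by
  intro l
  induction l with
  | nil =>
    intro x y z h s hs
    have : s = [] := by simpa using hs
    subst this
    rintro ⟨h1, h2, h3⟩
    simp only [List.zip_nil_left, List.map_nil, List.sum_nil, Nat.add_zero] at h1 h2 h3
    have e1 := Nat.ble_eq.mpr h1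
    have e2 := Nat.ble_eq.mpr h2
    have e3 := Nat.ble_eq.mpr h3
    simp [chk, e1, e2, e3] at h
  | cons g t ih =>
    intro x y z h s hs
    obtain ⟨r, c, u⟩ := g
    cases s with
    | nil => simp at hs
    | cons f s =>
      simp only [List.length_cons, Nat.add_right_cancel_iff] at hs
      simp only [chk, Bool.and_eq_true] at h
      obtain ⟨⟨h1, h2⟩, h3⟩ := h
      simp only [List.zip_cons_cons, List.map_cons, List.sum_cons]
      fin_cases f
      · have := ih _ _ _ h1 s hs
        simp [sel] at this ⊢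
        intro ha hb
        exact this (by omega) (by omega)
      · have := ih _ _ _ h2 s hs
        simp [sel] at this ⊢
        intro ha hb
        exact this (by omega) (by omega)
      · have := ih _ _ _ h3 s hs
        simp [sel] at this ⊢
        intro ha hb
        have := this (by omega) (by omega)
        omega

theorem chk_ok : chk [(1,1,1),(16,16,15),(23,22,23),(26,26,25),(4,4,4),(10,9,10),(12,13,13),
    (19,20,20),(9,9,9)] 0 0 0 = true := by decide +kernel

/-- No way to hand out the nine goods gives every agent value at least `40`. -/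
theorem goods (f : Fin 9 → Fin 3) :
    ¬ (∀ i : Fin 3, 40 ≤ ∑ j : Fin 9, sel i (f j) (w i j)) := by
  intro h
  have hs := chk_sound _ 0 0 0 chk_ok [f 0, f 1, f 2, f 3, f 4, f 5, f 6, f 7, f 8] rfl
  apply hs
  have h0 := h 0
  have h1 := h 1
  have h2 := h 2
  simp [Fin.sum_univ_succ, w, wl] at h0 h1 h2
  simp
  refine ⟨?_, ?_, ?_⟩
  · exact h0
  · exact h1
  · exact h2

/-- The same statement in terms of three pairwise disjoint bundles. -/
theorem goods' (S : Fin 3 → Finset ℕ) (hd : ∀ i i', i ≠ i' → Disjoint (S i) (S i'))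
    (h : ∀ i, 40 ≤ ∑ j ∈ S i, w i j) : False := by
  classical
  apply goods (fun j => if (j : ℕ) ∈ S 0 then 0 else if (j : ℕ) ∈ S 1 then 1 else 2)
  intro i
  refine (h i).trans ?_
  have h1 : ∑ j ∈ S i, w i j = ∑ j ∈ (S i).filter (· < 9), w i j := by
    rw [Finset.sum_filter]
    refine Finset.sum_congr rfl fun j _ => ?_
    split_ifs with hj
    · rfl
    · exact w_zero i j (by omega)
  have h2 : ∑ j ∈ (S i).filter (· < 9), w i j
      = ∑ j : Fin 9, if (j : ℕ) ∈ S i then w i j else 0 := by
    rw [← Finset.sum_filter]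
    symm
    refine Finset.sum_bij (fun (j : Fin 9) _ => (j : ℕ)) ?_ ?_ ?_ ?_
    · intro j hj
      simp only [Finset.mem_filter, Finset.mem_univ, true_and] at hj ⊢
      exact ⟨hj, j.isLt⟩
    · intro a _ b _ hab
      exact Fin.ext hab
    · intro b hb
      simp only [Finset.mem_filter] at hb
      exact ⟨⟨b, hb.2⟩, by simp [hb.1], rfl⟩
    · intro a _
      rfl
  rw [h1, h2]
  refine Finset.sum_le_sum fun j _ => ?_
  by_cases hj : (j : ℕ) ∈ S i
  · rw [if_pos hj]
    have h01 := hd 0 1 (by decide)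
    have h02 := hd 0 2 (by decide)
    have h12 := hd 1 2 (by decide)
    rw [Finset.disjoint_left] at h01 h02 h12
    fin_cases i
    · have hj : (j : ℕ) ∈ S 0 := hj
      simp [sel, hj]
    · have hj : (j : ℕ) ∈ S 1 := hj
      have : (j : ℕ) ∉ S 0 := fun hh => h01 hh hj
      simp [sel, hj, this]
    · have hj : (j : ℕ) ∈ S 2 := hj
      have h0 : (j : ℕ) ∉ S 0 := fun hh => h02 hh hj
      have h1 : (j : ℕ) ∉ S 1 := fun hh => h12 hh hj
      simp [sel, h0, h1]
  · rw [if_neg hj]
    exact Nat.zero_le _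

/-! ### The cake -/

/-- The island `j`. -/
def isl (j : ℕ) : Set ℝ := Icc (2 * (j : ℝ)) (2 * (j : ℝ) + 1)

theorem isl_eq {j j' : ℕ} {x : ℝ} (h : x ∈ isl j) (h' : x ∈ isl j') : j = j' := by
  simp only [isl, mem_Icc] at h h'
  have a1 : ((j : ℕ) : ℝ) < (j' : ℕ) + 1 := by linarith
  have a2 : ((j' : ℕ) : ℝ) < (j : ℕ) + 1 := by linarith
  have b1 : (j : ℕ) < (j' : ℕ) + 1 := by exact_mod_cast a1
  have b2 : (j' : ℕ) < (j : ℕ) + 1 := by exact_mod_cast a2
  omega

theorem isl_disjoint {j j' : ℕ} (h : j ≠ j') : Disjoint (isl j) (isl j') :=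
  Set.disjoint_left.mpr fun _ hx hx' => h (isl_eq hx hx')

theorem measurableSet_isl (j : ℕ) : MeasurableSet (isl j) := measurableSet_Icc

theorem volume_isl (j : ℕ) : volume (isl j) = 1 := by
  rw [isl, Real.volume_Icc]
  simp

/-- The cake with `m` islands. -/
def cake (m : ℕ) : Set ℝ := ⋃ j : Fin m, isl j

/-- The value of the island `j` to agent `i` when every agent may receive `k` intervals. -/
def v (k : ℕ) (i : Fin 3) (j : ℕ) : ℕ := if j < 3 * k then 60 * k + w i j else 0

theorem v_le (k : ℕ) (i : Fin 3) (j : ℕ) : v k i j ≤ 60 * k + w i j := by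
  unfold v
  split_ifs
  · exact le_rfl
  · exact Nat.zero_le _

theorem v_le' (k : ℕ) (i : Fin 3) (j : ℕ) : v k i j ≤ 60 * k + 26 :=
  (v_le k i j).trans (Nat.add_le_add_left (w_le i j) _)

/-- The value measure of agent `i`. -/
noncomputable def mu (k m : ℕ) (i : Fin 3) : Measure ℝ :=
  ∑ j : Fin m, (v k i j : ℝ≥0∞) • volume.restrict (isl j)

theorem mu_apply' (k m : ℕ) (i : Fin 3) (s : Set ℝ) :
    mu k m i s = ∑ j : Fin m, (v k i j : ℝ≥0∞) * (volume.restrict (isl j)) s := by
  simp [mu, Measure.finsetSum_apply]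

theorem mu_island (k m : ℕ) (i : Fin 3) (j : Fin m) (s : Set ℝ) (hs : s ⊆ isl j) :
    mu k m i s = (v k i j : ℝ≥0∞) * volume s := by
  rw [mu_apply', Finset.sum_eq_single j]
  · rw [Measure.restrict_eq_self _ hs]
  · intro l _ hl
    have hdis : s ∩ isl l = ∅ := by
      rw [← Set.disjoint_iff_inter_eq_empty]
      exact (isl_disjoint fun h => hl (Fin.ext h.symm)).mono_left hs
    rw [Measure.restrict_apply' (measurableSet_isl _), hdis]
    simp
  · simp

theorem mu_finite (k m : ℕ) (i : Fin 3) : IsFiniteMeasure (mu k m i) := by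
  refine ⟨?_⟩
  rw [mu_apply']
  refine ENNReal.sum_lt_top.mpr fun j _ => ?_
  refine ENNReal.mul_lt_top (by simp) ?_
  rw [Measure.restrict_apply_univ, volume_isl]
  exact ENNReal.one_lt_top

theorem mu_ac (k m : ℕ) (i : Fin 3) : mu k m i ≪ volume := by
  intro s hs
  rw [mu_apply']
  refine Finset.sum_eq_zero fun j _ => ?_
  have : (volume.restrict (isl j)) s = 0 :=
    Measure.absolutelyContinuous_of_le Measure.restrict_le_self hs
  simp [this]

theorem isValueMeasure {k m : ℕ} (hk : 4 ≤ k) (hm : 3 * k ≤ m) (i : Fin 3) :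
    IsValueMeasure (cake m) (mu k m i) where
  finite := mu_finite k m i
  noAtoms := ⟨fun x => mu_ac k m i (by simp)⟩
  conc := by
    rw [mu_apply']
    refine Finset.sum_eq_zero fun j _ => ?_
    have : (volume.restrict (isl j)) (cake m)ᶜ = 0 := by
      rw [Measure.restrict_apply' (measurableSet_isl _)]
      have : (cake m)ᶜ ∩ isl j = ∅ := by
        rw [← Set.disjoint_iff_inter_eq_empty]
        exact Set.disjoint_left.mpr fun x hx hx' => hx (mem_iUnion.mpr ⟨j, hx'⟩)
      rw [this, measure_empty]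
    rw [this, mul_zero]
  pos := by
    have h0 : (0 : ℕ) < m := by omega
    have h1 : mu k m i (isl ((⟨0, h0⟩ : Fin m) : ℕ)) ≤ mu k m i (cake m) :=
      measure_mono (Set.subset_iUnion (fun j : Fin m => isl j) ⟨0, h0⟩)
    refine lt_of_lt_of_le ?_ h1
    rw [mu_island k m i ⟨0, h0⟩ _ subset_rfl, volume_isl, mul_one]
    have : 0 < v k i 0 := by
      unfold v
      rw [if_pos (by omega)]
      omega
    exact_mod_cast this

/-- An interval inside the cake lies in one island. -/
theorem exists_island {m : ℕ} (hm : 0 < m) {I : Set ℝ} (hI : I.OrdConnected) (hC : I ⊆ cake m) :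
    ∃ j : Fin m, I ⊆ isl j := by
  by_cases hne : I.Nonempty
  · obtain ⟨x, hx⟩ := hne
    obtain ⟨j, hj⟩ := mem_iUnion.mp (hC hx)
    refine ⟨j, fun y hy => ?_⟩
    obtain ⟨j', hj'⟩ := mem_iUnion.mp (hC hy)
    -- a point between two different islands would be in the cake
    have key : ∀ (a b : ℝ) (p q : Fin m), a ∈ I → b ∈ I → a ∈ isl p → b ∈ isl q →
        ¬ ((p : ℕ) < q) := by
      intro a b p q ha hb hap hbq hpq
      simp only [isl, mem_Icc] at hap hbq
      have h1 : ((p : ℕ) : ℝ) + 1 ≤ (q : ℕ) := by exact_mod_cast hpq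
      have h2 : 2 * ((p : ℕ) : ℝ) + 3 / 2 ∈ I := by
        refine hI.out ha hb ⟨?_, ?_⟩ <;> linarith [hap.1, hap.2, hbq.1, hbq.2]
      obtain ⟨t, ht⟩ := mem_iUnion.mp (hC h2)
      simp only [isl, mem_Icc] at ht
      have h3 : ((t : ℕ) : ℝ) < (p : ℕ) + 1 := by linarith [ht.1]
      have h4 : ((p : ℕ) : ℝ) < (t : ℕ) := by linarith [ht.2]
      have h5 : (t : ℕ) < (p : ℕ) + 1 := by exact_mod_cast h3
      have h6 : (p : ℕ) < (t : ℕ) := by exact_mod_cast h4
      omega
    have h1 := key x y j j' hx hy hj hj'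
    have h2 := key y x j' j hy hx hj' hj
    have : (j : ℕ) = j' := by omega
    rw [this]
    exact hj'
  · rw [Set.not_nonempty_iff_eq_empty] at hne
    exact ⟨⟨0, hm⟩, by rw [hne]; exact Set.empty_subset _⟩

/-! ### The maximin shares -/

/-- The index of the `l`-th island in the bundle `p` of the reference partition of agent `i`. -/
def idx (i p : Fin 3) (l : ℕ) : ℕ := if h : l < 4 then tbl i p ⟨l, h⟩ else 3 * l + p

theorem idx_lt {k : ℕ} (hk : 4 ≤ k) (i p : Fin 3) (l : Fin k) : idx i p l < 3 * k := by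
  unfold idx
  split_ifs with h
  · have := tbl_lt i p ⟨l, h⟩
    omega
  · have := p.isLt
    have := l.isLt
    omega

theorem idx_inj {i p p' : Fin 3} {l l' : ℕ} (h : idx i p l = idx i p' l') : p = p' ∧ l = l' := by
  unfold idx at h
  split_ifs at h with h1 h2 h2
  · have := tbl_inj i p p' _ _ h
    exact ⟨this.1, by simpa using this.2⟩
  · have := tbl_lt i p ⟨l, h1⟩
    omega
  · have := tbl_lt i p' ⟨l', h2⟩
    omega
  · have := p.isLt
    have := p'.isLt
    constructor
    · apply Fin.ext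
      omega
    · omega

theorem idx_sum {k : ℕ} (hk : 4 ≤ k) (i p : Fin 3) :
    ∑ l : Fin k, v k i (idx i p l) = 60 * k ^ 2 + 40 := by
  have h1 : ∀ l : Fin k, v k i (idx i p l) = 60 * k + w i (idx i p l) := by
    intro l
    unfold v
    rw [if_pos (idx_lt hk i p l)]
  simp only [h1, Finset.sum_add_distrib, Finset.sum_const, Finset.card_univ, Fintype.card_fin,
    smul_eq_mul]
  have h2 : ∑ l : Fin k, w i (idx i p l) = 40 := by
    have h3 : ∑ l : Fin k, w i (idx i p l) = ∑ l ∈ Finset.range k, w i (idx i p l) :=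
      Fin.sum_univ_eq_sum_range (fun l => w i (idx i p l)) k
    rw [h3]
    obtain ⟨t, rfl⟩ : ∃ t, k = 4 + t := ⟨k - 4, by omega⟩
    rw [Finset.sum_range_add]
    have h4 : ∑ x ∈ Finset.range t, w i (idx i p (4 + x)) = 0 := by
      refine Finset.sum_eq_zero fun x _ => ?_
      apply w_zero
      unfold idx
      rw [dif_neg (by omega)]
      omega
    have h5 : ∑ x ∈ Finset.range 4, w i (idx i p x) = ∑ l : Fin 4, w i (tbl i p l) := by
      rw [← Fin.sum_univ_eq_sum_range (fun l => w i (idx i p l)) 4]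
      refine Finset.sum_congr rfl fun l _ => ?_
      unfold idx
      rw [dif_pos l.isLt]
    rw [h4, h5, tbl_sum]
  rw [h2]
  ring

/-- Every agent can guarantee `60 k ^ 2 + 40`. -/
theorem le_MMS {k m : ℕ} (hk : 4 ≤ k) (hm : 3 * k ≤ m) (i : Fin 3) :
    ((60 * k ^ 2 + 40 : ℕ) : ℝ≥0∞) ≤ MMS (cake m) k 3 (mu k m i) := by
  let P : Fin 3 → Set ℝ := fun p => ⋃ l : Fin k, isl (idx i p l)
  have hP : IsAllocation (cake m) k P := by
    constructor
    · intro p
      refine ⟨fun l => isl (idx i p l), fun l => ordConnected_Icc, fun l => ?_, rfl⟩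
      have h := idx_lt hk i p l
      exact Set.subset_iUnion (fun j : Fin m => isl j) ⟨idx i p l, by omega⟩
    · intro p p' hpp
      refine Set.disjoint_left.mpr fun x hx hx' => ?_
      obtain ⟨l, hl⟩ := mem_iUnion.mp hx
      obtain ⟨l', hl'⟩ := mem_iUnion.mp hx'
      exact hpp (idx_inj (isl_eq hl hl')).1
  refine le_trans ?_ (le_iSup₂ (f := fun (P : Fin 3 → Set ℝ) (_ : IsAllocation (cake m) k P) =>
    ⨅ j, mu k m i (P j)) P hP)
  refine le_iInf fun p => ?_
  have h1 : mu k m i (P p) = ∑ l : Fin k, (v k i (idx i p l) : ℝ≥0∞) := by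
    change mu k m i (⋃ l : Fin k, isl (idx i p l)) = _
    rw [measure_iUnion _ (fun l => measurableSet_isl _), tsum_fintype]
    · refine Finset.sum_congr rfl fun l _ => ?_
      have h := idx_lt hk i p l
      have := mu_island k m i ⟨idx i p l, by omega⟩ (isl (idx i p l)) subset_rfl
      rw [this, volume_isl, mul_one]
    · intro l l' hl
      exact isl_disjoint fun h => hl (Fin.ext (idx_inj h).2)
  rw [h1, ← Nat.cast_sum, idx_sum hk]

/-! ### No allocation is fair -/

theorem no_fair {k m : ℕ} (hk : 4 ≤ k) (hm : 3 * k ≤ m) (X : Fin 3 → Set ℝ)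
    (hX : IsAllocation (cake m) k X) :
    ∃ i, mu k m i (X i) ≤ ((60 * k ^ 2 + 39 : ℕ) : ℝ≥0∞) := by
  classical
  by_contra hcon
  push Not at hcon
  obtain ⟨hpiece, hdisjX⟩ := hX
  choose I hOrd hIC hXI using hpiece
  have hm0 : 0 < m := by omega
  choose K hK using fun i l => exists_island hm0 (hOrd i l) (hIC i l)
  have hIX : ∀ i l, I i l ⊆ X i := fun i l => by
    rw [hXI i]; exact Set.subset_iUnion _ l
  let S : Fin 3 → Finset (Fin m) := fun i => Finset.univ.image (K i)
  have hisl : ∀ i (j : Fin m), mu k m i (isl j) = (v k i j : ℝ≥0∞) := by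
    intro i j
    rw [mu_island k m i j _ subset_rfl, volume_isl, mul_one]
  -- the value is at most the value of the islands that are touched
  have hS' : ∀ i, mu k m i (X i) ≤ ((∑ j ∈ S i, v k i j : ℕ) : ℝ≥0∞) := by
    intro i
    have hsub : X i ⊆ ⋃ j ∈ S i, isl j := by
      rw [hXI i]
      intro x hx
      obtain ⟨l, hl⟩ := mem_iUnion.mp hx
      exact mem_iUnion₂.mpr ⟨K i l, Finset.mem_image_of_mem _ (Finset.mem_univ _), hK i l hl⟩
    refine (measure_mono hsub).trans ((measure_biUnion_finset_le _ _).trans ?_)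
    push_cast
    exact Finset.sum_le_sum fun j _ => (hisl i j).le
  have hS : ∀ i, 60 * k ^ 2 + 40 ≤ ∑ j ∈ S i, v k i j := by
    intro i
    have h1 := (hcon i).trans_le (hS' i)
    have h2 : 60 * k ^ 2 + 39 < ∑ j ∈ S i, v k i j := by exact_mod_cast h1
    omega
  have hcard : ∀ i, (S i).card = k := by
    intro i
    have hle : (S i).card ≤ k := by
      refine Finset.card_image_le.trans ?_
      simp
    by_contra hne
    have h1 : (S i).card ≤ k - 1 := by omega
    have h2 : ∑ j ∈ S i, v k i j ≤ (S i).card * (60 * k + 26) := by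
      have := Finset.sum_le_card_nsmul (S i) (fun j : Fin m => v k i j) (60 * k + 26)
        (fun j _ => v_le' k i j)
      simpa using this
    have h3 : (S i).card * (60 * k + 26) ≤ (k - 1) * (60 * k + 26) := Nat.mul_le_mul_right _ h1
    have h4 := hS i
    obtain ⟨t, rfl⟩ : ∃ t, k = t + 1 := ⟨k - 1, by omega⟩
    simp only [Nat.add_sub_cancel] at h3
    nlinarith
  have hKinj : ∀ i, Function.Injective (K i) := by
    intro i
    have h1 := hcard i
    rw [← Set.injOn_univ, ← Finset.coe_univ]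
    apply Finset.card_image_iff.mp
    change (S i).card = _
    rw [h1, Finset.card_univ, Fintype.card_fin]
  -- every interval is longer than one half
  have hlen : ∀ i l, (1 / 2 : ℝ≥0∞) < volume (I i l) := by
    intro i l
    by_contra hshort
    have hshort := not_lt.mp hshort
    have hU : X i ⊆ I i l ∪ ⋃ j ∈ (Finset.univ.erase l).image (K i), isl j := by
      rw [hXI i]
      intro x hx
      obtain ⟨l', hl'⟩ := mem_iUnion.mp hx
      by_cases hll : l' = l
      · left; rwa [hll] at hl'
      · right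
        exact mem_iUnion₂.mpr ⟨K i l', Finset.mem_image_of_mem _ (by simp [hll]), hK i l' hl'⟩
    have h6 : mu k m i (I i l) ≤ ((30 * k + 13 : ℕ) : ℝ≥0∞) := by
      rw [mu_island k m i (K i l) _ (hK i l)]
      have hv : (v k i (K i l) : ℝ≥0∞) ≤ ((60 * k + 26 : ℕ) : ℝ≥0∞) := by
        exact_mod_cast v_le' k i (K i l)
      calc (v k i (K i l) : ℝ≥0∞) * volume (I i l)
          ≤ ((60 * k + 26 : ℕ) : ℝ≥0∞) * (1 / 2) := mul_le_mul' hv hshort
        _ = ((2 * (30 * k + 13) : ℕ) : ℝ≥0∞) * (1 / 2) := by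
            congr 2
            ring
        _ = ((30 * k + 13 : ℕ) : ℝ≥0∞) := by
            rw [Nat.cast_mul, mul_comm, ← mul_assoc, Nat.cast_ofNat, ENNReal.div_mul_cancel
              (by norm_num) (by norm_num), one_mul]
    have h7 : mu k m i (⋃ j ∈ (Finset.univ.erase l).image (K i), isl j)
        ≤ (((k - 1) * (60 * k + 26) : ℕ) : ℝ≥0∞) := by
      refine (measure_biUnion_finset_le _ _).trans ?_
      have h8 : ∑ j ∈ (Finset.univ.erase l).image (K i), v k i j ≤ (k - 1) * (60 * k + 26) := by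
        have := Finset.sum_le_card_nsmul ((Finset.univ.erase l).image (K i))
          (fun j : Fin m => v k i j) (60 * k + 26) (fun j _ => v_le' k i j)
        refine this.trans ?_
        have hc : ((Finset.univ.erase l).image (K i)).card ≤ k - 1 := by
          refine Finset.card_image_le.trans ?_
          simp
        simp only [smul_eq_mul]
        exact Nat.mul_le_mul_right _ hc
      have h9 : ∑ j ∈ (Finset.univ.erase l).image (K i), (v k i j : ℝ≥0∞)
          ≤ (((k - 1) * (60 * k + 26) : ℕ) : ℝ≥0∞) := by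
        rw [← Nat.cast_sum]
        exact_mod_cast h8
      exact le_trans (Finset.sum_le_sum (fun j _ => (hisl i j).le)) h9
    have h10 : mu k m i (X i) ≤ ((30 * k + 13 + (k - 1) * (60 * k + 26) : ℕ) : ℝ≥0∞) := by
      refine (measure_mono hU).trans ((measure_union_le _ _).trans ?_)
      rw [Nat.cast_add]
      exact add_le_add h6 h7
    have h11 := (hcon i).trans_le h10
    have h12 : 60 * k ^ 2 + 39 < 30 * k + 13 + (k - 1) * (60 * k + 26) := by exact_mod_cast h11
    obtain ⟨t, rfl⟩ : ∃ t, k = t + 1 := ⟨k - 1, by omega⟩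
    simp only [Nat.add_sub_cancel] at h12
    nlinarith
  have hdisj : ∀ i i', i ≠ i' → Disjoint (S i) (S i') := by
    intro i i' hii
    rw [Finset.disjoint_left]
    intro j hj hj'
    simp only [S, Finset.mem_image, Finset.mem_univ, true_and] at hj hj'
    obtain ⟨l, hl⟩ := hj
    obtain ⟨l', hl'⟩ := hj'
    have e1 := hlen i l
    have e2 := hlen i' l'
    have hs1 := hK i l
    have hs2 := hK i' l'
    rw [hl] at hs1
    rw [hl'] at hs2
    have hd : Disjoint (I i l) (I i' l') := (hdisjX hii).mono (hIX i l) (hIX i' l')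
    have h1 : volume (I i l ∪ I i' l') = volume (I i l) + volume (I i' l') :=
      measure_union hd (hOrd i' l').measurableSet
    have h2 : volume (I i l ∪ I i' l') ≤ 1 := by
      rw [← volume_isl j]
      exact measure_mono (Set.union_subset hs1 hs2)
    rw [h1] at h2
    have h3 : (1 / 2 : ℝ≥0∞) + 1 / 2 < volume (I i l) + volume (I i' l') :=
      ENNReal.add_lt_add e1 e2
    rw [ENNReal.add_halves] at h3
    exact absurd (lt_of_lt_of_le h3 h2) (lt_irrefl _)
  refine goods' (fun i => (S i).map Fin.valEmbedding) ?_ ?_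
  · intro i i' hii
    exact (Finset.disjoint_map _).mpr (hdisj i i' hii)
  · intro i
    have h1 := hS i
    rw [Finset.sum_map]
    have h2 : ∑ j ∈ S i, v k i j ≤ ∑ j ∈ S i, (60 * k + w i j) :=
      Finset.sum_le_sum fun j _ => v_le k i j
    rw [Finset.sum_add_distrib, Finset.sum_const, hcard i, smul_eq_mul] at h2
    have h3 : k * (60 * k) = 60 * k ^ 2 := by ring
    have h4 : ∑ x ∈ S i, w i (Fin.valEmbedding x) = ∑ x ∈ S i, w i x := rfl
    rw [h4]
    omega

/-- **Theorem.** For every `k ≥ 4` and every `m ≥ 3 k` there are a multicake with `m` islands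
(pairwise disjoint nondegenerate compact intervals) and value measures of three agents such that
every allocation of pairwise disjoint `k`-pieces gives some agent strictly less than her maximin
share, and even at most `(60 k ^ 2 + 39) / (60 k ^ 2 + 40)` times her maximin share. -/
theorem result (k m : ℕ) (hk : 4 ≤ k) (hm : 3 * k ≤ m) :
    ∃ lo hi : Fin m → ℝ, (∀ j, lo j < hi j) ∧
      Pairwise (fun i j => Disjoint (Icc (lo i) (hi i)) (Icc (lo j) (hi j))) ∧
      ∃ V : Fin 3 → Measure ℝ,
        (∀ i, IsValueMeasure (⋃ j, Icc (lo j) (hi j)) (V i)) ∧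
        ∀ X : Fin 3 → Set ℝ, IsAllocation (⋃ j, Icc (lo j) (hi j)) k X →
          ∃ i, V i (X i) < MMS (⋃ j, Icc (lo j) (hi j)) k 3 (V i) ∧
            V i (X i) ≤ ((60 * k ^ 2 + 39 : ℕ) / (60 * k ^ 2 + 40 : ℕ)) *
              MMS (⋃ j, Icc (lo j) (hi j)) k 3 (V i) := by
  refine ⟨fun j => 2 * ((j : ℕ) : ℝ), fun j => 2 * ((j : ℕ) : ℝ) + 1, fun j => by linarith,
    fun i j hij => isl_disjoint fun h => hij (Fin.ext h), mu k m, ?_, ?_⟩
  · intro i
    exact isValueMeasure hk hm i
  · intro X hX
    obtain ⟨i, hi⟩ := no_fair hk hm X hX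
    have hM := le_MMS hk hm i
    refine ⟨i, ?_, ?_⟩
    · refine hi.trans_lt (lt_of_lt_of_le ?_ hM)
      exact_mod_cast Nat.lt_succ_self _
    · refine hi.trans ?_
      calc ((60 * k ^ 2 + 39 : ℕ) : ℝ≥0∞)
          = ((60 * k ^ 2 + 39 : ℕ) / (60 * k ^ 2 + 40 : ℕ)) * ((60 * k ^ 2 + 40 : ℕ) : ℝ≥0∞) := by
            rw [ENNReal.div_mul_cancel]
            · exact_mod_cast (by omega : 60 * k ^ 2 + 40 ≠ 0)
            · exact ENNReal.natCast_ne_top _
        _ ≤ _ := mul_le_mul' le_rfl hM

end Pool.Agent.Results.MP_436c60_co.ThreeAgents
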